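import Pool.Agent.H27.HC.Main2

/-!
# The optimal constant and the extremals of the horizontal Sobolev inequality for `p` above `2`

For every `n >= 1` and every `p > 2` close to `2` the horizontal Sobolev inequality on the
Heisenberg group of real dimension `2 n + 1` has an extremal, the optimal constant differs from an
explicit quotient of Gamma functions by at most `A (p - 2) ^ 2`, and any two extremals agree up to
left translations, dilations, constant multiples and an error `exp (- M / (p - 2))`, for every `M`.
-/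

set_option autoImplicit false

namespace Pool.Agent.Results.MP_8352e3_an.AboveTwo

open MeasureTheory Set Filter Topology Pool.Agent.H80.HS Pool.Agent.H93.HQ Pool.Agent.H27.HB
open Pool.Agent.H27.HC

/-- For every `n >= 1` the number `KK n 2` is the optimal constant for `p = 2`, and there is `A`
such that for every `M > 0` and all `p > 2` sufficiently close to `2` (in terms of `n` and `M`):
there is an optimal constant `C`, the same for real- and for complex-valued functions, with
`KK n p <= C <= KK n p + A (p - 2) ^ 2`; there is an extremal `U >= 0` with `∫ |U| ^ p* = 1`, at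
distance at most `A (p - 2)` in `L^p*` from the normalised Jerison-Lee function; every real-valued
extremal `u` is `c U (dil r (mul a z))` up to an error of norm `exp (- M / (p - 2))` times the norm
of `u`; and `U` is invariant under the unitary group acting on `z` and under the reflection
`(z, t) ↦ (conj z, -t)` up to an error `exp (- M / (p - 2))`. -/
theorem result : ∀ n : ℕ, 1 ≤ n → IsLeast {C : ℝ | SobolevIneq ℝ n 2 C} (KK n 2) ∧
    ∃ A : ℝ, 0 < A ∧ ∀ M : ℝ, 0 < M → ∃ δ : ℝ, 0 < δ ∧ δ < 1 ∧ ∀ p : ℝ, 2 < p → p < 2 + δ →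
    ∃ C : ℝ, IsLeast {C : ℝ | SobolevIneq ℝ n p C} C ∧
      IsLeast {C : ℝ | SobolevIneq ℂ n p C} C ∧
      0 < KK n p ∧ KK n p ≤ C ∧ C ≤ KK n p + A * (p - 2) ^ 2 ∧
      ∃ U : H n → ℝ, (∀ z, 0 ≤ U z) ∧ ms (ps n p) U = 1 ∧ Extr n p C U ∧
        ms (ps n p) (fun z => U z - yq n (ps n p) z) ^ (1 / ps n p) ≤ A * (p - 2) ∧
        (∀ u : H n → ℝ, Extr n p C u → ∃ (c : ℝ) (a : H n) (r : ℝ), c ≠ 0 ∧ 0 < r ∧
          ms (ps n p) (fun z => u z - c * U (dil r (mul a z))) ^ (1 / ps n p) ≤
            Real.exp (-(M / (p - 2))) * ms (ps n p) u ^ (1 / ps n p)) ∧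
        (∀ B ∈ Matrix.unitaryGroup (Fin n) ℂ,
          ms (ps n p) (fun z => U (ua B z) - U z) ^ (1 / ps n p) ≤
            Real.exp (-(M / (p - 2)))) ∧
        ms (ps n p) (fun z => U (rfn z) - U z) ^ (1 / ps n p) ≤ Real.exp (-(M / (p - 2))) :=
  hc_main2

end Pool.Agent.Results.MP_8352e3_an.AboveTwo
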