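import Pool.Agent.H1.HQ.CAP
import Pool.Agent.H11.HS.S2
import Pool.Agent.H11.HS.S4
import Pool.Agent.H12.HQ.RAD
import Pool.Agent.H12.HS.V1
import Pool.Agent.H12.HS.V2
import Pool.Agent.H17.HQ.BL2
import Pool.Agent.H17.HQ.EX
import Pool.Agent.H17.HS.A2
import Pool.Agent.H17.HS.B3
import Pool.Agent.H20.HQ.BT
import Pool.Agent.H20.HQ.CV
import Pool.Agent.H20.HQ.MZ
import Pool.Agent.H23.HQ.DIL
import Pool.Agent.H33.HQ.N1
import Pool.Agent.H33.HQ.RF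
import Pool.Agent.H33.HQ.TR
import Pool.Agent.H34.HQ.S0
import Pool.Agent.H37.HS.A1
import Pool.Agent.H37.HS.G0
import Pool.Agent.H37.HS.V5
import Pool.Agent.H4.HS.B2
import Pool.Agent.H4.HS.C2
import Pool.Agent.H4.HS.L3
import Pool.Agent.H40.HS.S5
import Pool.Agent.H40.HS.S6
import Pool.Agent.H47.HQ.SA
import Pool.Agent.H47.HQ.WK
import Pool.Agent.H48.HS.L2
import Pool.Agent.H48.HS.V0
import Pool.Agent.H48.HS.V7
import Pool.Agent.H49.HQ.POL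
import Pool.Agent.H50.HQ.RI
import Pool.Agent.H51.HQ.ROT
import Pool.Agent.H56.HQ.LINE
import Pool.Agent.H58.HQ.PL
import Pool.Agent.H58.HS.B5
import Pool.Agent.H58.HS.V6
import Pool.Agent.H58.HS.V8
import Pool.Agent.H6.HQ.ONE
import Pool.Agent.H60.HQ.AV
import Pool.Agent.H67.HS.B1
import Pool.Agent.H67.HS.B4
import Pool.Agent.H67.HS.S1
import Pool.Agent.H68.HS.C1
import Pool.Agent.H68.HS.V3
import Pool.Agent.H68.HS.V4
import Pool.Agent.H69.HQ.FI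
import Pool.Agent.H69.HQ.K2
import Pool.Agent.H69.HQ.LB
import Pool.Agent.H69.HS.S3
import Pool.Agent.H70.HQ.RC
import Pool.Agent.H80.HS.B6
import Pool.Agent.H85.HQ.BR
import Pool.Agent.H85.HQ.ST
import Pool.Agent.H86.HQ.N2
import Pool.Agent.H86.HQ.S1
import Pool.Agent.H87.HQ.BL1
import Pool.Agent.H87.HQ.N3
import Pool.Agent.H89.HQ.GT
import Pool.Agent.H93.HQ.K1
import Pool.Agent.H94.HS.L1

/-!
# The sharp horizontal Sobolev constant for all exponents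

For every `n >= 1` and every `p` with `1 < p < Q = 2 n + 2` the optimal constant of the horizontal
Sobolev inequality on the Heisenberg group of real dimension `2 n + 1` is
`(n / (pi e)) ^ (p / 2) p ^ p / (Q (Q - p) ^ (p - 1))` up to a factor `exp (O (p log (n + 1) / n))`
with an absolute constant.
-/

set_option autoImplicit false

namespace Pool.Agent.Results.MP_8352e3_an.AllExponents

open MeasureTheory Set Filter Topology Pool.Agent.H80.HS Pool.Agent.H93.HQ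

theorem pC1 : T_C1 := Pool.Agent.H68.HS.c1
theorem pL1 : T_L1 := Pool.Agent.H94.HS.L1.l1
theorem pV2 : T_V2 := Pool.Agent.H12.HS.V2.v2
theorem pV0 : T_V0 := Pool.Agent.H48.HS.V0.v0
theorem pV1 : T_V1 := Pool.Agent.H12.HS.V1.v1 pV0
theorem pV4 : T_V4 := Pool.Agent.H68.HS.v4 pV1 pV2
theorem pB1 : T_B1 := Pool.Agent.H67.HS.B1.b1
theorem pB2 : T_B2 := Pool.Agent.H4.HS.B2.b2 pB1
theorem pB3 : T_B3 := Pool.Agent.H17.HS.b3 pB2
theorem pB4 : T_B4 := Pool.Agent.H67.HS.B4.b4 pB3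
theorem pB5 : T_B5 := Pool.Agent.H58.HS.B5.b5 pB4
theorem pB6 : T_B6 := Pool.Agent.H80.HS.B6.b6 pB5
theorem pS1 : T_S1 := Pool.Agent.H67.HS.S1.s1
theorem pS3 : T_S3 := Pool.Agent.H69.HS.S3.s3
theorem pS5 : T_S5 := Pool.Agent.H40.HS.S5.s5 pB6 pS1 pS3
theorem pS2 : T_S2 := Pool.Agent.H11.HS.S2.s2
theorem pS4 : T_S4 := Pool.Agent.H11.HS.S4.s4
theorem pS6 : T_S6 := Pool.Agent.H40.HS.S6.s6 pB6 pS2 pS4
theorem pV3 : T_V3 := Pool.Agent.H68.HS.v3 pV2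
theorem pV5 : T_V5 := Pool.Agent.H37.HS.v5 pS1 pS2 pV2
theorem pV6 : T_V6 := Pool.Agent.H58.HS.V6.v6 pS1 pS2
theorem pV7 : T_V7 := Pool.Agent.H48.HS.V7.v7 pS5 pS6 pV2 pV3 pV5 pV6
theorem pV8 : T_V8 := Pool.Agent.H58.HS.V8.v8 pV2 pV4 pV7
theorem pL2 : T_L2 := Pool.Agent.H48.HS.L2.l2 pV8
theorem pL3 : T_L3 := Pool.Agent.H4.HS.L3.l3 pL1 pL2
theorem pC2 : T_C2 := Pool.Agent.H4.HS.C2.c2 pC1 pL3
theorem pA1 : T_A1 := Pool.Agent.H37.HS.a1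
theorem pA2 : T_A2 := Pool.Agent.H17.HS.a2 pA1
theorem pG0 : T_G0 := Pool.Agent.H37.HS.g0
theorem qRF : U_RF := Pool.Agent.H33.HQ.pf_RF
theorem qRAD : U_RAD := Pool.Agent.H12.HQ.pf_RAD
theorem qPL : U_PL := Pool.Agent.H58.HQ.PL.pf_PL qRAD
theorem qDIL : U_DIL := Pool.Agent.H23.HQ.pf_DIL
theorem qMZ : U_MZ := Pool.Agent.H20.HQ.pf_MZ
theorem qPOL : U_POL := Pool.Agent.H49.HQ.pf_POL qRAD qPL qDIL qMZ
theorem qRC : U_RC := Pool.Agent.H70.HQ.pf_RC qRF qPOL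
theorem qRI : U_RI := Pool.Agent.H50.HQ.pf_RI qRC
theorem qBL1 : U_BL1 := Pool.Agent.H87.HQ.pf_BL1
theorem qBL2 : U_BL2 := Pool.Agent.H17.HQ.BL2.pf_BL2
theorem qLB : U_LB := Pool.Agent.H69.HQ.pf_LB qRI qBL1 qBL2
theorem qSA : U_SA := Pool.Agent.H47.HQ.pf_SA
theorem qS1 : U_S1 := Pool.Agent.H86.HQ.pf_S1 qSA
theorem qS0 : U_S0 := Pool.Agent.H34.HQ.pf_S0 qSA
theorem qN1 : U_N1 := Pool.Agent.H33.HQ.pf_N1 qS0
theorem qN2 : U_N2 := Pool.Agent.H86.HQ.pf_N2 pA2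
theorem qN3 : U_N3 := Pool.Agent.H87.HQ.pf_N3 qS0 qS1
theorem qROT : U_ROT := Pool.Agent.H51.HQ.pf_ROT
theorem qAV : U_AV := Pool.Agent.H60.HQ.pf_AV qROT
theorem qONE : U_ONE := Pool.Agent.H6.HQ.pf_ONE
theorem qCV : U_CV := Pool.Agent.H20.HQ.pf_CV
theorem qLINE : U_LINE := Pool.Agent.H56.HQ.pf_LINE qONE qCV
theorem qBR : U_BR := Pool.Agent.H85.HQ.BR.pf_BR qPOL qMZ qAV qDIL qLINE
theorem qGT : U_GT := Pool.Agent.H89.HQ.pf_GT
theorem qBT : U_BT := Pool.Agent.H20.HQ.pf_BT qBR qGT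
theorem qK1 : U_K1 := Pool.Agent.H93.HQ.K1.pf_K1 qPOL
theorem qK2 : U_K2 := Pool.Agent.H69.HQ.pf_K2 qPOL
theorem qTR : U_TR := Pool.Agent.H33.HQ.pf_TR
theorem qWK : U_WK := Pool.Agent.H47.HQ.pf_WK qK1 qK2 qTR
theorem qCAP : U_CAP := Pool.Agent.H1.HQ.pf_CAP qBT qWK
theorem qST : U_ST := Pool.Agent.H85.HQ.pf_ST qCAP
theorem qEX : U_EX := Pool.Agent.H17.HQ.EX.pf_EX
theorem qFI : U_FI := Pool.Agent.H69.HQ.pf_FI qLB qS1 qN1 qN2 qN3 qST qEX pC2 pG0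

/-- For every `n >= 1` and every `p` with `1 < p < Q = 2 n + 2` the horizontal Sobolev inequality
has an optimal constant `C`, and `log C` differs from
`log ((n / (pi e)) ^ (p / 2) p ^ p / (Q (Q - p) ^ (p - 1)))` by at most `A p log (n + 1) / n`,
`A` an absolute constant. -/
theorem result : ∃ A : ℝ, ∀ n : ℕ, 1 ≤ n → ∀ p : ℝ, 1 < p → p < 2 * n + 2 →
    ∀ (𝕜 : Type) [RCLike 𝕜], ∃ C : ℝ, 0 < C ∧ IsLeast {C : ℝ | SobolevIneq 𝕜 n p C} C ∧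
      |Real.log C - Real.log ((n / (Real.pi * Real.exp 1)) ^ (p / 2) * p ^ p /
        ((2 * n + 2) * (2 * n + 2 - p) ^ (p - 1)))| ≤ A * p * Real.log (n + 1) / n :=
  qFI

end Pool.Agent.Results.MP_8352e3_an.AllExponents
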