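import Pool.Agent.H1.HQ.CAP
import Pool.Agent.H12.HQ.RAD
import Pool.Agent.H17.HQ.EX
import Pool.Agent.H20.HQ.BT
import Pool.Agent.H20.HQ.CV
import Pool.Agent.H20.HQ.MZ
import Pool.Agent.H23.HQ.DIL
import Pool.Agent.H33.HQ.RF
import Pool.Agent.H33.HQ.TR
import Pool.Agent.H34.HQ.N5
import Pool.Agent.H34.HQ.S0
import Pool.Agent.H37.HS.G0
import Pool.Agent.H47.HQ.SA
import Pool.Agent.H47.HQ.SQ
import Pool.Agent.H47.HQ.WK
import Pool.Agent.H49.HQ.POL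
import Pool.Agent.H50.HQ.RI
import Pool.Agent.H51.HQ.ROT
import Pool.Agent.H56.HQ.LINE
import Pool.Agent.H58.HQ.PL
import Pool.Agent.H6.HQ.ONE
import Pool.Agent.H60.HQ.AV
import Pool.Agent.H67.HQ.N4
import Pool.Agent.H67.HQ.SL
import Pool.Agent.H69.HQ.K2
import Pool.Agent.H70.HQ.RC
import Pool.Agent.H85.HQ.BR
import Pool.Agent.H85.HQ.ST
import Pool.Agent.H86.HQ.S1
import Pool.Agent.H87.HQ.LP
import Pool.Agent.H89.HQ.GT
import Pool.Agent.H90.HQ.FIII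
import Pool.Agent.H93.HQ.K1

/-!
# The sharp horizontal Sobolev constant near the critical exponent

For `Q - 1 <= p < Q = 2 n + 2` the optimal constant `C` of the horizontal Sobolev inequality on the
Heisenberg group satisfies `C sigma ((Q - p) / (Q - 1)) ^ (p - 1) = 1 + o(1)` as `p` tends to `Q`,
`sigma = 2 pi ^ (n + 1 / 2) Gamma (n + 1 / 2) / (n! (n - 1)!)`, with an explicit rate which is uniform
in `n`.
-/

set_option autoImplicit false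

namespace Pool.Agent.Results.MP_8352e3_an.CriticalExponent

open MeasureTheory Set Filter Topology Pool.Agent.H80.HS Pool.Agent.H93.HQ

theorem pG0 : T_G0 := Pool.Agent.H37.HS.g0
theorem qRF : U_RF := Pool.Agent.H33.HQ.pf_RF
theorem qRAD : U_RAD := Pool.Agent.H12.HQ.pf_RAD
theorem qPL : U_PL := Pool.Agent.H58.HQ.PL.pf_PL qRAD
theorem qDIL : U_DIL := Pool.Agent.H23.HQ.pf_DIL
theorem qMZ : U_MZ := Pool.Agent.H20.HQ.pf_MZ
theorem qPOL : U_POL := Pool.Agent.H49.HQ.pf_POL qRAD qPL qDIL qMZ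
theorem qRC : U_RC := Pool.Agent.H70.HQ.pf_RC qRF qPOL
theorem qRI : U_RI := Pool.Agent.H50.HQ.pf_RI qRC
theorem qLP : U_LP := Pool.Agent.H87.HQ.pf_LP qRI
theorem qROT : U_ROT := Pool.Agent.H51.HQ.pf_ROT
theorem qAV : U_AV := Pool.Agent.H60.HQ.pf_AV qROT
theorem qONE : U_ONE := Pool.Agent.H6.HQ.pf_ONE
theorem qCV : U_CV := Pool.Agent.H20.HQ.pf_CV
theorem qLINE : U_LINE := Pool.Agent.H56.HQ.pf_LINE qONE qCV
theorem qBR : U_BR := Pool.Agent.H85.HQ.BR.pf_BR qPOL qMZ qAV qDIL qLINE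
theorem qGT : U_GT := Pool.Agent.H89.HQ.pf_GT
theorem qBT : U_BT := Pool.Agent.H20.HQ.pf_BT qBR qGT
theorem qK1 : U_K1 := Pool.Agent.H93.HQ.K1.pf_K1 qPOL
theorem qK2 : U_K2 := Pool.Agent.H69.HQ.pf_K2 qPOL
theorem qTR : U_TR := Pool.Agent.H33.HQ.pf_TR
theorem qWK : U_WK := Pool.Agent.H47.HQ.pf_WK qK1 qK2 qTR
theorem qCAP : U_CAP := Pool.Agent.H1.HQ.pf_CAP qBT qWK
theorem qST : U_ST := Pool.Agent.H85.HQ.pf_ST qCAP
theorem qEX : U_EX := Pool.Agent.H17.HQ.EX.pf_EX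
theorem qSL : U_SL := Pool.Agent.H67.HQ.pf_SL
theorem qSA : U_SA := Pool.Agent.H47.HQ.pf_SA
theorem qS0 : U_S0 := Pool.Agent.H34.HQ.pf_S0 qSA
theorem qN4 : U_N4 := Pool.Agent.H67.HQ.pf_N4 qSL qS0
theorem qS1 : U_S1 := Pool.Agent.H86.HQ.pf_S1 qSA
theorem qN5 : U_N5 := Pool.Agent.H34.HQ.pf_N5 qSL qS0 qS1
theorem qSQ : U_SQ := Pool.Agent.H47.HQ.pf_SQ
theorem qFIII : U_FIII := Pool.Agent.H90.HQ.pf_FIII qLP qST qEX qN4 qN5 qSQ pG0

/-- There is an absolute constant `A` such that for all `n >= 1` and `Q - 1 <= p < Q = 2 n + 2` the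
horizontal Sobolev inequality has an optimal constant `C`, and the logarithm of
`C sigma ((Q - p) / (Q - 1)) ^ (p - 1)` is at most `A log (n + 1) (Q - p) ^ ((Q - 1) / Q)` in absolute
value, where `sigma = 2 pi ^ (n + 1 / 2) Gamma (n + 1 / 2) / (n! (n - 1)!)`. -/
theorem result : ∃ A : ℝ, ∀ n : ℕ, 1 ≤ n → ∀ p : ℝ, 2 * n + 1 ≤ p → p < 2 * n + 2 →
    ∀ (𝕜 : Type) [RCLike 𝕜], ∃ C : ℝ, 0 < C ∧ IsLeast {C : ℝ | SobolevIneq 𝕜 n p C} C ∧
      |Real.log (C * (2 * Real.pi ^ ((n : ℝ) + 1 / 2) * Real.Gamma (n + 1 / 2) /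
        ((n.factorial : ℝ) * ((n - 1).factorial : ℝ))) *
        ((2 * n + 2 - p) / (2 * n + 1)) ^ (p - 1))| ≤
      A * Real.log (n + 1) * (2 * n + 2 - p) ^ ((2 * (n : ℝ) + 1) / (2 * n + 2)) :=
  qFIII

end Pool.Agent.Results.MP_8352e3_an.CriticalExponent
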