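import Pool.Agent.H27.HC.Main

/-!
# The optimal constant and the extremals of the horizontal Sobolev inequality for `p` below `2`

For every `n >= 1` there is `δ > 0` such that for `2 - δ < p < 2` the horizontal Sobolev
inequality on the Heisenberg group of real dimension `2 n + 1` has an extremal, the extremals,
real- or complex-valued, are unique up to left translations, dilations and constant multiples, and
the optimal constant differs from an explicit quotient of Gamma functions by at most
`A (2 - p) ^ 2`.
-/

set_option autoImplicit false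

namespace Pool.Agent.Results.MP_8352e3_an.UniqueExtremals

open MeasureTheory Set Filter Topology Pool.Agent.H80.HS Pool.Agent.H93.HQ Pool.Agent.H27.HB
open Pool.Agent.H27.HC

/-- For every `n >= 1` the number `KK n 2` is the optimal constant for `p = 2`, and there are
`δ` and `A` such that for `2 - δ < p < 2` there is an optimal constant `C`, the same for real- and
for complex-valued functions, it satisfies `KK n p <= C <= KK n p + A (2 - p) ^ 2`, and there is a
function `U >= 0` with `∫ |U| ^ p* = 1` such that the real-valued extremals are exactly the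
functions `c U (dil r (mul a z))`, `c` real and nonzero, and the complex-valued extremals are
exactly the same functions with `c` complex; the function `U` is invariant under the unitary group
acting on `z` and under the reflection `(z, t) ↦ (conj z, -t)`, and its distance in `L^p*` from the
normalised Jerison-Lee function is at most `A (2 - p)`. -/
theorem result : ∀ n : ℕ, 1 ≤ n → IsLeast {C : ℝ | SobolevIneq ℝ n 2 C} (KK n 2) ∧
    ∃ δ A : ℝ, 0 < δ ∧ δ < 1 ∧ 0 < A ∧ ∀ p : ℝ, 2 - δ < p → p < 2 →
    ∃ C : ℝ, IsLeast {C : ℝ | SobolevIneq ℝ n p C} C ∧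
      IsLeast {C : ℝ | SobolevIneq ℂ n p C} C ∧
      0 < KK n p ∧ KK n p ≤ C ∧ C ≤ KK n p + A * (2 - p) ^ 2 ∧
      ∃ U : H n → ℝ, (∀ z, 0 ≤ U z) ∧ ms (ps n p) U = 1 ∧
        (∀ u : H n → ℝ, Extr n p C u ↔ ∃ (c : ℝ) (a : H n) (r : ℝ), c ≠ 0 ∧ 0 < r ∧
          u =ᵐ[volume] fun z => c * U (dil r (mul a z))) ∧
        (∀ u : H n → ℂ, ExtrC n p C u ↔ ∃ (c : ℂ) (a : H n) (r : ℝ), c ≠ 0 ∧ 0 < r ∧
          u =ᵐ[volume] fun z => c * (U (dil r (mul a z)) : ℂ)) ∧
        (∀ M ∈ Matrix.unitaryGroup (Fin n) ℂ, (fun z => U (ua M z)) =ᵐ[volume] U) ∧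
        (fun z => U (rfn z)) =ᵐ[volume] U ∧
        ms (ps n p) (fun z => U z - yq n (ps n p) z) ^ (1 / ps n p) ≤ A * (2 - p) :=
  hc_main

end Pool.Agent.Results.MP_8352e3_an.UniqueExtremals
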